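import Mathlib
import Pool.Agent.Y496.HR.C

/-!
# MP_7fb4a2_an: no invariant subset of any power has a Hilbert representable factor
-/

open Filter Topology MeasureTheory

namespace Pool.Agent.Results.MP_7fb4a2_an.HereditaryAllPowers

universe u v

/-- The Fourier transform `n ↦ ∫ exp (2 π i n t) dρ(t)` of a positive Borel measure `ρ` on the
circle `ℝ / ℤ` (in Mathlib `fourier n` is the character `t ↦ exp (2 π i n t)` of `ℝ / ℤ`). -/
noncomputable def transform (ρ : Measure UnitAddCircle) (n : ℤ) : ℂ :=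
  ∫ t : UnitAddCircle, fourier n t ∂ρ

/-- `h ∈ B(ℤ)`: `h` is the Fourier transform of a complex Borel measure on the circle. A complex
measure is written as `ρ 0 - ρ 1 + i (ρ 2 - ρ 3)` with finite positive Borel measures `ρ k`. -/
def MemB (h : ℤ → ℂ) : Prop :=
  ∃ ρ : Fin 4 → Measure UnitAddCircle, (∀ k, IsFiniteMeasure (ρ k)) ∧
    ∀ n, h n = transform (ρ 0) n - transform (ρ 1) n
      + Complex.I * (transform (ρ 2) n - transform (ρ 3) n)

/-- `h ∈ H(ℤ)`: `h` is a uniform limit of elements of `B(ℤ)`. -/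
def MemH (h : ℤ → ℂ) : Prop :=
  ∀ ε : ℝ, 0 < ε → ∃ b, MemB b ∧ ∀ n, ‖h n - b n‖ ≤ ε

/-- The system `(Y, R)` is Hilbert representable over the scalar field `𝕜`: there are a
Hilbert space `H` over `𝕜`, a unitary operator `U` on `H` and a topological embedding `α` of `Y`
into `H` with its weak topology such that `α ∘ R = U ∘ α`. -/
def HilbertRepresentable (𝕜 : Type) [RCLike 𝕜] (Y : Type v) [TopologicalSpace Y]
    (R : Y ≃ₜ Y) : Prop :=
  ∃ (H : Type u) (_ : NormedAddCommGroup H) (_ : InnerProductSpace 𝕜 H) (_ : CompleteSpace H)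
    (U : H ≃ₗᵢ[𝕜] H) (α : Y → H),
    IsEmbedding (fun y => toWeakSpace 𝕜 H (α y)) ∧ ∀ y, α (R y) = U (α y)

/-- The orbit closure `X_f` of a real sequence `f` under the shift, in the product topology. -/
def OrbitClosure (f : ℤ → ℝ) : Set (ℤ → ℝ) :=
  closure (Set.range fun (n : ℤ) (m : ℤ) => f (m + n))

lemma continuous_inner_of_weak {𝕜 : Type} [RCLike 𝕜] {Y : Type*} [TopologicalSpace Y]
    {H : Type*} [NormedAddCommGroup H] [InnerProductSpace 𝕜 H] {α : Y → H}
    (h : Continuous fun y => toWeakSpace 𝕜 H (α y)) (v : H) :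
    Continuous fun y => inner 𝕜 v (α y) :=
  (WeakBilin.eval_continuous (topDualPairing 𝕜 H).flip (innerSL 𝕜 v)).comp h

lemma no_rep_factor (𝕜 : Type) [RCLike 𝕜] (q : ℕ) (hq : 0 < q)
    (W : Set Pool.Agent.H694R3.Hs.XX) (hWc : IsClosed W)
    (hW : ∀ x, x ∈ W ↔ (Pool.Agent.H694R3.Hs.SS ^ q) x ∈ W)
    {Y : Type v} [TopologicalSpace Y] [T2Space Y]
    (R : Y ≃ₜ Y) (π : W → Y) (hπ : Continuous π) (hs : Function.Surjective π)
    (he : ∀ x y : W, (y : Pool.Agent.H694R3.Hs.XX) = (Pool.Agent.H694R3.Hs.SS ^ q) x →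
      π y = R (π x))
    (h : HilbertRepresentable.{u, v} 𝕜 Y R) : Subsingleton Y := by
  obtain ⟨H, _, _, _, U, α, hα, hU⟩ := h
  refine Pool.Agent.Y496.HR.W_no_factor (𝕜 := 𝕜) q W hW hWc hq R π hπ hs
    (fun x => he x _ rfl) U α ?_ (continuous_inner_of_weak hα.continuous) hU
  intro x y hxy
  apply hα.injective
  simp only [hxy]

/-- There is a metrizable recurrent-transitive Hilbert system `(X, T)` such that for all `q ≥ 1`
no closed set `W` with `T ^ q W = W` has a nontrivial factor of `(W, T ^ q)` that is Hilbert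
representable, every continuous function on `X` whose values along some orbit of some power
`T ^ q` form an element of `B(ℤ)` is constant along this orbit, and `(X, T)` is a factor of the
system `X_f` of a positive definite function `f`. -/
theorem result : ∃ (X : Type) (_ : TopologicalSpace X) (_ : CompactSpace X)
    (_ : TopologicalSpace.MetrizableSpace X) (T : X ≃ₜ X) (x₀ : X),
    -- `x₀` is a transitive point
    Dense (Set.range fun n : ℤ => (T ^ n) x₀) ∧
    -- `X` has no isolated points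
    (∀ x : X, ¬ IsOpen ({x} : Set X)) ∧
    -- the system is Hilbert: `𝒜(X, x₀) ⊆ H(ℤ)`
    (∀ F : C(X, ℂ), MemH fun n => F ((T ^ n) x₀)) ∧
    -- every Hilbert representable factor of every closed `T ^ q`-invariant set is trivial
    (∀ (q : ℕ), 0 < q → ∀ W : Set X, IsClosed W → (∀ x, x ∈ W ↔ (T ^ q) x ∈ W) →
      ∀ (Y : Type v) (_ : TopologicalSpace Y) (_ : CompactSpace Y) (_ : T2Space Y) (R : Y ≃ₜ Y)
        (π : W → Y), Continuous π → Function.Surjective π →
        (∀ x y : W, (y : X) = (T ^ q) x → π y = R (π x)) →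
        (HilbertRepresentable.{u, v} ℝ Y R ∨ HilbertRepresentable.{u, v} ℂ Y R) →
        Subsingleton Y) ∧
    -- the only elements of `B(ℤ)` seen along orbits of powers are the constants
    (∀ (q : ℕ), 0 < q → ∀ (w : X) (F : C(X, ℂ)), (MemB fun n => F ((T ^ ((q : ℤ) * n)) w)) →
      ∃ c : ℂ, ∀ n : ℤ, F ((T ^ ((q : ℤ) * n)) w) = c) ∧
    -- `(X, T)` is a factor of the system `X_f` of a positive definite function `f`
    (∃ (f : ℤ → ℝ) (ρ : Measure UnitAddCircle), IsProbabilityMeasure ρ ∧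
      (∀ n, (f n : ℂ) = transform ρ n) ∧ ∃ θ : OrbitClosure f → X, Continuous θ ∧
        Function.Surjective θ ∧ ∀ g h : OrbitClosure f,
          (∀ m, (h : ℤ → ℝ) m = (g : ℤ → ℝ) (m + 1)) → θ h = T (θ g)) := by
  refine ⟨Pool.Agent.H694R3.Hs.XX, inferInstance, inferInstance, inferInstance,
    Pool.Agent.H694R3.Hs.SS, Pool.Agent.H694R3.Hs.x0, Pool.Agent.H694R3.Hs.XX_dense,
    Pool.Agent.H694R3.Hs.XX_no_isolated, Pool.Agent.H694R3.Hs.XX_hilbert, ?_, ?_, ?_⟩
  · intro q hq W hWc hW Y _ _ _ R π hπ hs he h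
    rcases h with h | h
    · exact no_rep_factor ℝ q hq W hWc hW R π hπ hs he h
    · exact no_rep_factor ℂ q hq W hWc hW R π hπ hs he h
  · intro q hq w F hF
    exact Pool.Agent.Y496.HR.orbit_const q hq w F hF
  · obtain ⟨μ, hμ⟩ := Pool.Agent.H694R3.Hs.exists_limit_measure
    have hset : OrbitClosure (fun n : ℤ => Pool.Agent.H694R3.Hs.fp (n : ℝ)) =
        Pool.Agent.Y496.HR.YY := rfl
    exact ⟨fun n => Pool.Agent.H694R3.Hs.fp n, μ, inferInstance, fun n => (hμ n).symm,
      Pool.Agent.Y496.HR.theta, Pool.Agent.Y496.HR.theta_continuous,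
      Pool.Agent.Y496.HR.theta_surjective, Pool.Agent.Y496.HR.theta_shift⟩

end Pool.Agent.Results.MP_7fb4a2_an.HereditaryAllPowers
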